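import Pool.Agent.helper99.WN.SpecB

/-!
# MP_5c1f29_al, row wn:RC: subdivision of an edge labelled by a word
-/

set_option autoImplicit false

open Classical

namespace Pool.Agent.WN

section

variable {V : Type} {k : ℕ}

/-- the nodes of the chain -/
noncomputable def RC_nd (I : Finset V) (a b : {v // v ∉ I}) (n j : ℕ) :
    {v // v ∉ I} ⊕ Fin (n - 1) :=
  if j = 0 then Sum.inl a else if h : j - 1 < n - 1 then Sum.inr ⟨j - 1, h⟩ else Sum.inl b

/-- the edges of the chain -/
noncomputable def RC_ce (I : Finset V) (a b : {v // v ∉ I}) (L : List (Lt k))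
    (j : Fin L.length) :
    ({v // v ∉ I} ⊕ Fin (L.length - 1)) × Fin k × ({v // v ∉ I} ⊕ Fin (L.length - 1)) :=
  if (L.get j).2 = true then
    (RC_nd I a b L.length j, (L.get j).1, RC_nd I a b L.length ((j : ℕ) + 1))
  else (RC_nd I a b L.length ((j : ℕ) + 1), (L.get j).1, RC_nd I a b L.length j)

/-- the old edges -/
def RC_oe (I : Finset V) (F1 : Gr V k) (hF : ∀ d ∈ F1, d.1 ∉ I ∧ d.2.2 ∉ I) (n : ℕ)
    (d : {d // d ∈ F1}) : ({v // v ∉ I} ⊕ Fin n) × Fin k × ({v // v ∉ I} ⊕ Fin n) :=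
  (Sum.inl ⟨d.1.1, (hF d.1 d.2).1⟩, d.1.2.1, Sum.inl ⟨d.1.2.2, (hF d.1 d.2).2⟩)

/-- the new graph -/
noncomputable def RC_E (I : Finset V) (F1 : Gr V k) (hF : ∀ d ∈ F1, d.1 ∉ I ∧ d.2.2 ∉ I)
    (a b : {v // v ∉ I}) (L : List (Lt k)) : Gr ({v // v ∉ I} ⊕ Fin (L.length - 1)) k :=
  F1.attach.image (RC_oe I F1 hF (L.length - 1)) ∪
    (Finset.univ : Finset (Fin L.length)).image (RC_ce I a b L)

/-- the map back -/
def RC_f (I : Finset V) (a : V) (n : ℕ) : {v // v ∉ I} ⊕ Fin n → V
  | Sum.inl v => v.1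
  | Sum.inr _ => a

/-- the gauge -/
def RC_g (I : Finset V) (L : List (Lt k)) (n : ℕ) : {v // v ∉ I} ⊕ Fin n → Fr k
  | Sum.inl _ => 1
  | Sum.inr j => (FreeGroup.mk (L.take ((j : ℕ) + 1)))⁻¹

theorem RC_take (L : List (Lt k)) (j : Fin L.length) :
    FreeGroup.mk (L.take ((j : ℕ) + 1)) = FreeGroup.mk (L.take j) * lt (L.get j) := by
  unfold lt
  rw [FreeGroup.mul_mk]
  congr 1
  rw [List.get_eq_getElem, List.take_append_getElem]

theorem RC_nd_zero (I : Finset V) (a b : {v // v ∉ I}) (n : ℕ) :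
    RC_nd I a b n 0 = Sum.inl a := by
  unfold RC_nd
  rw [if_pos rfl]

theorem RC_nd_top (I : Finset V) (a b : {v // v ∉ I}) (n : ℕ) (hn : n ≠ 0) :
    RC_nd I a b n n = Sum.inl b := by
  unfold RC_nd
  rw [if_neg hn, dif_neg (lt_irrefl _)]

theorem RC_nd_mid (I : Finset V) (a b : {v // v ∉ I}) (n j : ℕ) (hj : j ≠ 0) (h : j < n) :
    RC_nd I a b n j = Sum.inr ⟨j - 1, by omega⟩ := by
  unfold RC_nd
  rw [if_neg hj, dif_pos]

theorem RC_f_nd (I : Finset V) (a b : {v // v ∉ I}) (n j : ℕ) (h : j < n) :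
    RC_f I a.1 (n - 1) (RC_nd I a b n j) = a.1 := by
  by_cases hj : j = 0
  · rw [hj, RC_nd_zero]
    rfl
  · rw [RC_nd_mid I a b n j hj h]
    rfl

theorem RC_g_nd (I : Finset V) (a b : {v // v ∉ I}) (L : List (Lt k)) (j : ℕ)
    (h : j < L.length) :
    RC_g I L (L.length - 1) (RC_nd I a b L.length j) = (FreeGroup.mk (L.take j))⁻¹ := by
  by_cases hj : j = 0
  · rw [hj, RC_nd_zero]
    show (1 : Fr k) = _
    rw [List.take_zero, ← FreeGroup.one_eq_mk, inv_one]
  · rw [RC_nd_mid I a b L.length j hj h]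
    show (FreeGroup.mk (L.take (j - 1 + 1)))⁻¹ = _
    rw [Nat.sub_add_cancel (Nat.one_le_iff_ne_zero.2 hj)]

theorem RC_step (I : Finset V) (F1 : Gr V k) (a b : {v // v ∉ I}) (L : List (Lt k))
    (j : Fin L.length) :
    PL (lf F1 ∪ {(a.1, FreeGroup.mk L, b.1)})
      (RC_f I a.1 (L.length - 1) (RC_nd I a b L.length j))
      (RC_f I a.1 (L.length - 1) (RC_nd I a b L.length ((j : ℕ) + 1)))
      ((RC_g I L (L.length - 1) (RC_nd I a b L.length j))⁻¹ * lt (L.get j) *
        RC_g I L (L.length - 1) (RC_nd I a b L.length ((j : ℕ) + 1))) := by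
  rw [RC_f_nd I a b L.length j j.2, RC_g_nd I a b L j j.2, inv_inv, ← RC_take]
  by_cases hj : (j : ℕ) + 1 < L.length
  · rw [RC_f_nd I a b L.length _ hj, RC_g_nd I a b L _ hj, mul_inv_cancel]
    exact PL.nil _
  · have hj2 : (j : ℕ) + 1 = L.length := by
      have := j.2
      omega
    rw [hj2, RC_nd_top I a b L.length (by omega), List.take_length]
    show PL _ a.1 b.1 (FreeGroup.mk L * 1)
    rw [mul_one]
    apply PL.edge
    right
    rfl

theorem RC_rl (I : Finset V) (F1 : Gr V k) (hF : ∀ d ∈ F1, d.1 ∉ I ∧ d.2.2 ∉ I)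
    (a b : {v // v ∉ I}) (L : List (Lt k)) (j : Fin L.length) :
    Rl (RC_E I F1 hF a b L) (RC_nd I a b L.length j) (L.get j)
      (RC_nd I a b L.length ((j : ℕ) + 1)) := by
  have h1 : RC_ce I a b L j ∈ RC_E I F1 hF a b L := by
    unfold RC_E
    apply Finset.mem_union_right
    exact Finset.mem_image_of_mem _ (Finset.mem_univ j)
  unfold RC_ce at h1
  unfold Rl
  split_ifs at h1 ⊢
  · exact h1
  · exact h1

theorem RC_chain (I : Finset V) (F1 : Gr V k) (hF : ∀ d ∈ F1, d.1 ∉ I ∧ d.2.2 ∉ I)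
    (a b : {v // v ∉ I}) (L : List (Lt k)) (j : ℕ) (hj : j ≤ L.length) :
    PL (lf (RC_E I F1 hF a b L)) (RC_nd I a b L.length 0) (RC_nd I a b L.length j)
      (FreeGroup.mk (L.take j)) := by
  induction j with
  | zero =>
    rw [List.take_zero, ← FreeGroup.one_eq_mk]
    exact PL.nil _
  | succ j ih =>
    have h1 := ih (by omega)
    have h2 := rl_pl (RC_rl I F1 hF a b L ⟨j, by omega⟩)
    have h3 := h1.trans h2
    rw [← RC_take L ⟨j, by omega⟩] at h3
    exact h3

theorem RC_card [Fintype V] (I : Finset V) :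
    Fintype.card {v // v ∉ I} + I.card = Fintype.card V := by
  have h1 : Fintype.card {v // v ∉ I} = (Finset.univ \ I).card := by
    rw [Fintype.card_subtype]
    congr 1
    ext v
    simp
  rw [h1, Finset.card_sdiff_add_card_eq_card (Finset.subset_univ I), Finset.card_univ]

end

/-- RC -/
theorem RC : RC_stmt := by
  intro V _ k F1 a b v0 L I hF ha hb hv hL
  have hn : L.length ≠ 0 := fun h => hL (List.length_eq_zero_iff.1 h)
  refine ⟨{v // v ∉ I} ⊕ Fin (L.length - 1), inferInstance,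
    RC_E I F1 hF ⟨a, ha⟩ ⟨b, hb⟩ L, Sum.inl ⟨v0, hv⟩, ?_, ?_⟩
  · have h1 : (RC_E I F1 hF ⟨a, ha⟩ ⟨b, hb⟩ L).card ≤ F1.card + L.length := by
      unfold RC_E
      refine (Finset.card_union_le _ _).trans (add_le_add ?_ ?_)
      · exact Finset.card_image_le.trans (Finset.card_attach).le
      · refine Finset.card_image_le.trans ?_
        rw [Finset.card_univ, Fintype.card_fin]
    have h2 := RC_card I
    have h3 : Fintype.card ({v // v ∉ I} ⊕ Fin (L.length - 1)) =
        Fintype.card {v // v ∉ I} + (L.length - 1) := by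
      rw [Fintype.card_sum, Fintype.card_fin]
    omega
  · intro h
    constructor
    · intro hp
      have h1 := PL.mor (S' := lf F1 ∪ {(a, FreeGroup.mk L, b)})
        (RC_f I a (L.length - 1)) (RC_g I L (L.length - 1)) ?_ hp
      · have h2 : (RC_g I L (L.length - 1) (Sum.inl ⟨v0, hv⟩))⁻¹ * h *
            RC_g I L (L.length - 1) (Sum.inl ⟨v0, hv⟩) = h := by
          show (1 : Fr k)⁻¹ * h * 1 = h
          rw [inv_one, one_mul, mul_one]
        rw [h2] at h1
        exact h1
      · rintro x g y ⟨e, he, hxy⟩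
        obtain ⟨rfl, rfl, rfl⟩ : x = e.1 ∧ g = FreeGroup.of e.2.1 ∧ y = e.2.2 := by
          simpa using hxy
        unfold RC_E at he
        rw [Finset.mem_union, Finset.mem_image, Finset.mem_image] at he
        rcases he with ⟨d, hd, rfl⟩ | ⟨j, hj, rfl⟩
        · show PL _ d.1.1 d.1.2.2 ((1 : Fr k)⁻¹ * FreeGroup.of d.1.2.1 * 1)
          rw [inv_one, one_mul, mul_one]
          apply PL.edge
          left
          exact ⟨d.1, d.2, rfl⟩
        · have h2 := RC_step I F1 ⟨a, ha⟩ ⟨b, hb⟩ L j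
          by_cases hj2 : (L.get j).2 = true
          · have h3 : lt (L.get j) = FreeGroup.of (L.get j).1 := by
              have h4 : L.get j = ((L.get j).1, true) := Prod.ext rfl hj2
              rw [h4, lt_true]
            rw [h3] at h2
            unfold RC_ce
            rw [if_pos hj2]
            exact h2
          · have h3 : lt (L.get j) = (FreeGroup.of (L.get j).1)⁻¹ := by
              have h4 : L.get j = ((L.get j).1, false) :=
                Prod.ext rfl (by simpa using hj2)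
              rw [h4, lt_false]
            rw [h3] at h2
            unfold RC_ce
            rw [if_neg hj2]
            have h5 := h2.symm
            rw [mul_inv_rev, mul_inv_rev, inv_inv, inv_inv, ← mul_assoc] at h5
            exact h5
    · intro hp
      have h1 := PL.map (S' := lf (RC_E I F1 hF ⟨a, ha⟩ ⟨b, hb⟩ L))
        (fun v => if hv' : v ∉ I then (Sum.inl ⟨v, hv'⟩ :
          {v // v ∉ I} ⊕ Fin (L.length - 1)) else Sum.inl ⟨v0, hv⟩) ?_ hp
      · simp only [dif_pos hv] at h1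
        exact h1
      · rintro x g y hxy
        rcases hxy with ⟨e, he, hxy⟩ | hxy
        · obtain ⟨rfl, rfl, rfl⟩ : x = e.1 ∧ g = FreeGroup.of e.2.1 ∧ y = e.2.2 := by
            simpa using hxy
          have hx1 := (hF e he).1
          have hx2 := (hF e he).2
          simp only [dif_pos hx1, dif_pos hx2]
          apply PL.edge
          refine ⟨RC_oe I F1 hF (L.length - 1) ⟨e, he⟩, ?_, rfl⟩
          unfold RC_E
          apply Finset.mem_union_left
          exact Finset.mem_image_of_mem _ (Finset.mem_attach _ _)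
        · obtain ⟨rfl, rfl, rfl⟩ : x = a ∧ g = FreeGroup.mk L ∧ y = b := by
            simpa using hxy
          simp only [dif_pos ha, dif_pos hb]
          have h2 := RC_chain I F1 hF ⟨x, ha⟩ ⟨y, hb⟩ L L.length le_rfl
          rw [RC_nd_zero, RC_nd_top I _ _ L.length hn, List.take_length] at h2
          exact h2

end Pool.Agent.WN
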